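import Pool.Agent.W295.NL.Stm

/-! Project NL (owner helper295), part QU: the quotient by a central translation. -/

set_option autoImplicit false

namespace Pool.Agent.W509.NL.QU

open Pool.Agent.W295.NL

section

variable {Q : Type} {L : Q → Q → Q} {p : ℕ} {ζ : Q → Q}

theorem iter_mod (hp : ζ^[p] = id) (m : ℕ) : ζ^[m % p] = ζ^[m] := by
  conv_rhs => rw [← Nat.mod_add_div m p]
  rw [Function.iterate_add, Function.iterate_mul, hp, Function.iterate_id, Function.comp_id]

/-- the powers of `ζ` -/
def T (ζ : Q → Q) (k : ZMod p) : Q → Q := ζ^[k.val]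

theorem T_add [NeZero p] (hp : ζ^[p] = id) (k l : ZMod p) (x : Q) :
    T ζ (k + l) x = T ζ k (T ζ l x) := by
  unfold T
  rw [ZMod.val_add, iter_mod hp, Function.iterate_add_apply]

theorem T_zero [NeZero p] (x : Q) : T ζ (0 : ZMod p) x = x := by
  unfold T
  rw [ZMod.val_zero]
  rfl

theorem iter_left (hc : Central L ζ) (k : ℕ) (u v : Q) : L (ζ^[k] u) v = ζ^[k] (L u v) := by
  induction k with
  | zero => rfl
  | succ k ih => rw [Function.iterate_succ_apply', Function.iterate_succ_apply', (hc _ _).1, ih]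

theorem iter_right (hc : Central L ζ) (k : ℕ) (u v : Q) : L u (ζ^[k] v) = ζ^[k] (L u v) := by
  induction k with
  | zero => rfl
  | succ k ih => rw [Function.iterate_succ_apply', Function.iterate_succ_apply', (hc _ _).2, ih]

theorem T_free (hL : IsLatin L) (hpp : p.Prime) (hc : Central L ζ) (hid : ζ ≠ id)
    (hp : ζ^[p] = id) (k : ZMod p) (x : Q) (h : T ζ k x = x) : k = 0 := by
  haveI : Fact p.Prime := ⟨hpp⟩
  by_contra hk
  apply hid
  have h1 : ζ^[k.val] = id := by
    funext y
    obtain ⟨v, rfl⟩ := (hL.1 x).2 y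
    rw [← iter_left hc]
    have h' : ζ^[k.val] x = x := h
    rw [h']
    rfl
  have h2 : ζ^[k.val * (k⁻¹ : ZMod p).val] = id := by
    rw [Function.iterate_mul, h1, Function.iterate_id]
  have h3 : (k.val * (k⁻¹ : ZMod p).val) % p = 1 := by
    rw [← ZMod.val_mul, mul_inv_cancel₀ hk, ZMod.val_one]
  have h4 := iter_mod hp (k.val * (k⁻¹ : ZMod p).val)
  rw [h3, h2, Function.iterate_one] at h4
  exact h4

end

theorem main : S_QU := by
  intro Q _ L hL p ζ hpp hc hid hp
  classical
  haveI : Fact p.Prime := ⟨hpp⟩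
  haveI : NeZero p := ⟨hpp.ne_zero⟩
  have tadd := fun (k l : ZMod p) (x : Q) => T_add (ζ := ζ) hp k l x
  have tinj : ∀ (k l : ZMod p) (x : Q), T ζ k x = T ζ l x → k = l := by
    intro k l x h
    have h1 : T ζ (-l + k) x = x := by
      rw [tadd, h, ← tadd, neg_add_cancel, T_zero]
    have h2 := T_free hL hpp hc hid hp _ _ h1
    have h3 : k = l + (-l + k) := by ring
    rw [h3, h2, add_zero]
  have tl : ∀ (k : ZMod p) (u v : Q), L (T ζ k u) v = T ζ k (L u v) :=
    fun k u v => iter_left hc k.val u v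
  have tr : ∀ (k : ZMod p) (u v : Q), L u (T ζ k v) = T ζ k (L u v) :=
    fun k u v => iter_right hc k.val u v
  let r : Setoid Q :=
    { r := fun x y => ∃ k : ZMod p, y = T ζ k x
      iseqv := by
        refine ⟨fun x => ⟨0, (T_zero x).symm⟩, ?_, ?_⟩
        · rintro x y ⟨k, rfl⟩
          refine ⟨-k, ?_⟩
          rw [← tadd, neg_add_cancel, T_zero]
        · rintro x y z ⟨k, rfl⟩ ⟨l, rfl⟩
          exact ⟨l + k, by rw [tadd]⟩ }
  let q : Q → Quotient r := Quotient.mk r
  let s : Quotient r → Q := Quotient.out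
  have qs : ∀ a, q (s a) = a := fun a => Quotient.out_eq a
  have qT : ∀ (k : ZMod p) (x : Q), q (T ζ k x) = q x := by
    intro k x
    exact (Quotient.sound (s := r) ⟨k, rfl⟩ : q x = q (T ζ k x)).symm
  have hex : ∀ x : Q, ∃ k : ZMod p, x = T ζ k (s (q x)) := by
    intro x
    have h : q (s (q x)) = q x := qs _
    exact Quotient.exact (s := r) h
  choose κ hκ using hex
  have hκT : ∀ (k : ZMod p) (a : Quotient r), κ (T ζ k (s a)) = k := by
    intro k a
    have h1 := hκ (T ζ k (s a))
    rw [qT, qs] at h1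
    exact (tinj _ _ _ h1).symm
  let e : Q ≃ Quotient r × ZMod p :=
    { toFun := fun x => (q x, κ x)
      invFun := fun a => T ζ a.2 (s a.1)
      left_inv := fun x => (hκ x).symm
      right_inv := by
        rintro ⟨a, k⟩
        show (q (T ζ k (s a)), κ (T ζ k (s a))) = (a, k)
        rw [qT, qs, hκT] }
  have heT : ∀ (k : ZMod p) (a : Quotient r), e (T ζ k (s a)) = (a, k) := by
    intro k a
    show (q (T ζ k (s a)), κ (T ζ k (s a))) = (a, k)
    rw [qT, qs, hκT]
  haveI : Finite (Quotient r) := inferInstance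
  refine ⟨Quotient r, fun a b => q (L (s a) (s b)), fun a b => κ (L (s a) (s b)), e,
    inferInstance, ⟨?_, ?_⟩, ?_, ?_⟩
  · intro a
    have hsurj : Function.Surjective (fun b => q (L (s a) (s b))) := by
      intro c
      obtain ⟨y, hy⟩ := (hL.1 (s a)).2 (s c)
      refine ⟨q y, ?_⟩
      show q (L (s a) (s (q y))) = c
      rw [hκ y, tr] at hy
      have h1 := congrArg q hy
      rw [qT, qs] at h1
      exact h1
    exact ⟨Finite.injective_iff_surjective.2 hsurj, hsurj⟩
  · intro b
    have hsurj : Function.Surjective (fun a => q (L (s a) (s b))) := by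
      intro c
      obtain ⟨y, hy⟩ := (hL.2 (s b)).2 (s c)
      refine ⟨q y, ?_⟩
      show q (L (s (q y)) (s b)) = c
      have hy' : L y (s b) = s c := hy
      rw [hκ y, tl] at hy'
      have h1 := congrArg q hy'
      rw [qT, qs] at h1
      exact h1
    exact ⟨Finite.injective_iff_surjective.2 hsurj, hsurj⟩
  · intro x y
    show e (L x y) = (q (L (s (q x)) (s (q y))), κ x + κ y + κ (L (s (q x)) (s (q y))))
    have h1 : L x y = T ζ (κ x + κ y + κ (L (s (q x)) (s (q y))))
        (s (q (L (s (q x)) (s (q y))))) := by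
      conv_lhs => rw [hκ x, hκ y, tl, tr, hκ (L (s (q x)) (s (q y)))]
      rw [tadd, tadd]
    rw [h1, heT]
  · intro x
    show e (ζ x) = (q x, κ x + 1)
    have h1 : ζ x = T ζ (κ x + 1) (s (q x)) := by
      rw [add_comm, tadd, ← hκ x]
      unfold T
      rw [ZMod.val_one]
      rfl
    rw [h1, heT]

end Pool.Agent.W509.NL.QU
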